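import Pool.Agent.helper53.ORE.Spec

/-!
# Row CLQ: `Ω(Q)` has index at most two in the group generated by the transvections
-/

set_option autoImplicit false

namespace Pool.Agent.ORE

open Module Pool.Agent.GS

theorem CLQ_mul {F V : Type} [Field F] [AddCommGroup V] [Module F V] (Q : QuadraticForm F V)
    (b : V) (g h : Equiv.Perm V) (hg : g ∈ OmQ Q ∨ rq Q b * g ∈ OmQ Q)
    (hh : h ∈ OmQ Q ∨ rq Q b * h ∈ OmQ Q) : g * h ∈ OmQ Q ∨ rq Q b * (g * h) ∈ OmQ Q := by
  have hb : rq Q b ∈ OQ Q := rq_mem Q b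
  rcases hg with hg | hg
  · rcases hh with hh | hh
    · exact Or.inl ((OmQ Q).mul_mem hg hh)
    · right
      have h1 := (OmQ Q).mul_mem (OmQ_conj hb hg) hh
      have h2 : rq Q b * g * (rq Q b)⁻¹ * (rq Q b * h) = rq Q b * (g * h) := by group
      rwa [h2] at h1
  · rcases hh with hh | hh
    · right
      rw [← mul_assoc]
      exact (OmQ Q).mul_mem hg hh
    · left
      have h1 := (OmQ Q).mul_mem (OmQ_conj hb hg) hh
      have h2 : rq Q b * (rq Q b * g) * (rq Q b)⁻¹ * (rq Q b * h) =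
          (rq Q b * rq Q b) * (g * h) := by group
      rw [h2, rq_sq, one_mul] at h1
      exact h1

theorem CLQ_inv {F V : Type} [Field F] [AddCommGroup V] [Module F V] (Q : QuadraticForm F V)
    (b : V) (g : Equiv.Perm V) (hg : g ∈ OmQ Q ∨ rq Q b * g ∈ OmQ Q) :
    g⁻¹ ∈ OmQ Q ∨ rq Q b * g⁻¹ ∈ OmQ Q := by
  have hb : rq Q b ∈ OQ Q := rq_mem Q b
  rcases hg with hg | hg
  · exact Or.inl ((OmQ Q).inv_mem hg)
  · right
    have h1 := OmQ_conj hb ((OmQ Q).inv_mem hg)
    have h2 : rq Q b * (rq Q b * g)⁻¹ * (rq Q b)⁻¹ =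
        rq Q b * g⁻¹ * ((rq Q b)⁻¹ * (rq Q b)⁻¹) := by group
    rw [h2, rq_inv, rq_sq, mul_one] at h1
    exact h1

theorem CLQ (rp : RP_stmt) : CLQ_stmt := by
  intro F V _ _ _ _ _ Q h2 hQ hn b hb g hg
  induction hg using Subgroup.closure_induction with
  | mem x hx =>
    obtain ⟨a, rfl⟩ := hx
    by_cases ha : Q a = 0
    · left
      have h1 : rq Q a = 1 := by
        unfold rq
        rw [dif_neg fun h => h.2 ha]
      rw [h1]
      exact (OmQ Q).one_mem
    · right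
      exact rp Q h2 hQ hn b a hb ha
  | one => exact Or.inl (OmQ Q).one_mem
  | mul x y _ _ hx hy => exact CLQ_mul Q b x y hx hy
  | inv x _ hx => exact CLQ_inv Q b x hx

end Pool.Agent.ORE
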