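import Pool.Agent.helper83.ORE.SpecDE

/-!
# Row DPI: the coordinate maps
-/

set_option autoImplicit false

namespace Pool.Agent.ORE

open Module Pool.Agent.GS

/-- first embedding -/
def DPI_inl {F E : Type} [Field F] [Field E] [Algebra F E] (ρ : E) : E →ₗ[F] QL ρ where
  toFun c := ⟨c, 0⟩
  map_add' x y := by ext <;> simp
  map_smul' c x := by ext <;> simp

/-- second embedding -/
def DPI_inr {F E : Type} [Field F] [Field E] [Algebra F E] (ρ : E) : E →ₗ[F] QL ρ where
  toFun c := ⟨0, c⟩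
  map_add' x y := by ext <;> simp
  map_smul' c x := by ext <;> simp

/-- pair of linear maps -/
def DPI_pair {F E V : Type} [Field F] [Field E] [Algebra F E] [AddCommGroup V] [Module F V]
    (ρ : E) (f g : V →ₗ[F] E) : V →ₗ[F] QL ρ where
  toFun x := ⟨f x, g x⟩
  map_add' x y := by ext <;> simp
  map_smul' c x := by ext <;> simp

theorem DPI : DPI_stmt := by
  intro F E V _ _ _ _ _ _ _ _ Q ρ n ζ
  have hnd : (Algebra.traceForm F E).Nondegenerate := traceForm_nondegenerate F E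
  let T := LinearMap.BilinForm.toDual (Algebra.traceForm F E) hnd
  let f1 : ZMod n → V →ₗ[F] Module.Dual F E := fun i => (pb Q).compl₂ ((ζ i).comp (DPI_inr ρ))
  let f2 : ZMod n → V →ₗ[F] Module.Dual F E := fun i => (pb Q).compl₂ ((ζ i).comp (DPI_inl ρ))
  have h1 : ∀ i x c, f1 i x c = pb Q x (ζ i ⟨0, c⟩) := fun i x c => rfl
  have h2 : ∀ i x c, f2 i x c = pb Q x (ζ i ⟨c, 0⟩) := fun i x c => rfl
  refine ⟨fun i => DPI_pair ρ (T.symm.toLinearMap.comp (f1 i)) (T.symm.toLinearMap.comp (f2 i)),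
    ?_⟩
  intro i x w
  have e1 : Algebra.trace F E (T.symm (f1 i x) * w.im) = f1 i x w.im :=
    LinearMap.BilinForm.apply_toDual_symm_apply (hB := hnd) (f1 i x) w.im
  have e2 : Algebra.trace F E (T.symm (f2 i x) * w.re) = f2 i x w.re :=
    LinearMap.BilinForm.apply_toDual_symm_apply (hB := hnd) (f2 i x) w.re
  have e3 : w = (⟨w.re, 0⟩ : QL ρ) + ⟨0, w.im⟩ := by ext <;> simp
  have e4 : pb Q x (ζ i w) = f2 i x w.re + f1 i x w.im := by
    rw [h1, h2, ← map_add, ← map_add, ← e3]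
  rw [e4, map_add, ← e1, ← e2, add_comm]
  rfl

end Pool.Agent.ORE
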